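import Pool.Agent.Helper85.GA.Flip

/-!
# Words made of layers and pairs of simple words, with a cost
-/

set_option autoImplicit false

namespace Pool.Agent.Helper43.GA

open Pool.Agent.Helper30.GA Pool.Agent.Helper85.GA

/-- pairwise non-adjacent letters -/
def Layer (v : List ℕ) : Prop := v.Pairwise fun a b => a + 2 ≤ b ∨ b + 2 ≤ a

/-- a word on `n + 1` strands made of layers (cost `2`) and pairs of simple words (cost
`n + 1` for the pair) -/
inductive Adm (n : ℕ) : List ℕ → ℕ → Prop
  | nil : Adm n [] 0
  | layer {v W : List ℕ} {c : ℕ} : (∀ a ∈ v, a < n) → Layer v → Adm n W c → Adm n (v ++ W) (c + 2)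
  | pair {u v W : List ℕ} {c : ℕ} : (∀ a ∈ u, a < n) → (∀ a ∈ v, a < n) → Once id u → Once id v →
      Adm n W c → Adm n (u ++ (v ++ W)) (c + (n + 1))

variable {n : ℕ}

theorem Adm.lt {W : List ℕ} {c : ℕ} (h : Adm n W c) : ∀ a ∈ W, a < n := by
  induction h with
  | nil => simp
  | layer hv _ _ ih =>
    intro b hb
    rcases List.mem_append.1 hb with hb | hb
    · exact hv b hb
    · exact ih b hb
  | pair hu hv _ _ _ ih =>
    intro b hb
    rcases List.mem_append.1 hb with hb | hb
    · exact hu b hb
    · rcases List.mem_append.1 hb with hb | hb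
      · exact hv b hb
      · exact ih b hb

theorem Adm.append {W W' : List ℕ} {c c' : ℕ} (h : Adm n W c) (h' : Adm n W' c') :
    Adm n (W ++ W') (c + c') := by
  induction h with
  | nil => simpa using h'
  | layer hv hl _ ih =>
    rw [List.append_assoc, Nat.add_right_comm]
    exact Adm.layer hv hl ih
  | pair hu hv h1 h2 _ ih =>
    rw [List.append_assoc, List.append_assoc, Nat.add_right_comm]
    exact Adm.pair hu hv h1 h2 ih

theorem layer_flip {v : List ℕ} (hv : ∀ a ∈ v, a < n) (h : Layer v) : Layer (flip n v) := by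
  induction v with
  | nil => exact List.Pairwise.nil
  | cons a v ih =>
    unfold Layer at h
    rw [List.pairwise_cons] at h
    obtain ⟨h1, h2⟩ := h
    have e : flip n (a :: v) = (n - 1 - a) :: flip n v := rfl
    rw [e]
    refine List.pairwise_cons.2 ⟨?_, ih (fun b hb => hv b (by simp [hb])) h2⟩
    intro b hb
    obtain ⟨b', hb', rfl⟩ := List.mem_map.1 hb
    have e1 := hv a (by simp)
    have e2 := hv b' (by simp [hb'])
    rcases h1 b' hb' with h3 | h3
    · right
      omega
    · left
      omega

theorem Adm.flip {W : List ℕ} {c : ℕ} (h : Adm n W c) : Adm n (Helper30.GA.flip n W) c := by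
  induction h with
  | nil => exact Adm.nil
  | layer hv hl _ ih =>
    rw [flip_append]
    exact Adm.layer (flip_lt hv) (layer_flip hv hl) ih
  | pair hu hv h1 h2 _ ih =>
    rw [flip_append, flip_append]
    exact Adm.pair (flip_lt hu) (flip_lt hv) (once_flip hu h1) (once_flip hv h2) ih

theorem Adm.iter_flip {W : List ℕ} {c : ℕ} (h : Adm n W c) (p : ℕ) :
    Adm n ((Helper30.GA.flip n)^[p] W) c := by
  induction p with
  | zero => exact h
  | succ p ih =>
    rw [Function.iterate_succ_apply']
    exact ih.flip

/-- `q` pairs of simple words -/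
theorem Adm.of_pairs {R : List (List ℕ)} {q : ℕ} (hl : R.length ≤ 2 * q)
    (hR : ∀ w ∈ R, (∀ a ∈ w, a < n) ∧ Once id w) : Adm n R.flatten ((n + 1) * q) := by
  induction q generalizing R with
  | zero =>
    have e : R = [] := List.eq_nil_of_length_eq_zero (by omega)
    subst e
    exact Adm.nil
  | succ q ih =>
    have hnil : (∀ a ∈ ([] : List ℕ), a < n) ∧ Once id [] := ⟨by simp, trivial⟩
    rw [Nat.mul_succ]
    match R, hR, hl with
    | [], _, _ => exact Adm.pair (u := []) (v := []) hnil.1 hnil.1 hnil.2 hnil.2 (ih (R := []) (by simp) (by simp))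
    | [w], hR, _ =>
      have := Adm.pair (hR w (by simp)).1 hnil.1 (hR w (by simp)).2 hnil.2 (ih (R := []) (by simp) (by simp))
      simpa using this
    | w :: w' :: R, hR, hl =>
      rw [List.flatten_cons, List.flatten_cons]
      refine Adm.pair (hR w (by simp)).1 (hR w' (by simp)).1 (hR w (by simp)).2 (hR w' (by simp)).2
        (ih ?_ fun v hv => hR v (by simp [hv]))
      simp only [List.length_cons] at hl
      omega

end Pool.Agent.Helper43.GA
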