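import Pool.Agent.Helper60.GA.Order
import Pool.Agent.Helper43.GA.Adm

/-!
# Products of half twists, layers and pairs of simple braids in any order
-/

set_option autoImplicit false

namespace Pool.Agent.Helper43.GA

open Pool.Agent.Helper30.GA Pool.Agent.Helper60.GA Pool.Agent.Helper60.LZ Pool.Agent.Helper69.LZ

variable {G : Type*} [Group G] {s : ℕ → G} {n : ℕ}

/-- products of `p` half twists, layers (cost `2`) and pairs of simple words (cost `n + 1`), in any
order, of total cost `c` -/
inductive Built (s : ℕ → G) (n : ℕ) : G → ℕ → ℕ → Prop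
  | one : Built s n 1 0 0
  | twist {g : G} {p c : ℕ} : Built s n g p c → Built s n (Flip.D s n * g) (p + 1) c
  | layer {v : List ℕ} {g : G} {p c : ℕ} : (∀ a ∈ v, a < n) → Layer v → Built s n g p c →
      Built s n (pv s v * g) p (c + 2)
  | pair {u v : List ℕ} {g : G} {p c : ℕ} : Ok n u → Ok n v → Built s n g p c →
      Built s n (pv s u * pv s v * g) p (c + (n + 1))

theorem pv_append (u v : List ℕ) : pv s (u ++ v) = pv s u * pv s v := by
  unfold pv
  rw [List.map_append, List.prod_append]

theorem pv_flip_iter (h : Flip.Rel s n) (p : ℕ) {w : List ℕ} (hw : ∀ a ∈ w, a < n) :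
    pv s w * Flip.D s n ^ p = Flip.D s n ^ p * pv s ((Helper30.GA.flip n)^[p] w) := by
  induction p generalizing w with
  | zero => simp
  | succ p ih =>
    rw [pow_succ', ← mul_assoc, pv_flip h hw, mul_assoc, ih (Helper85.GA.flip_lt hw), ← mul_assoc,
      Function.iterate_succ_apply]

theorem layer_iter_flip {v : List ℕ} (hv : ∀ a ∈ v, a < n) (hl : Layer v) (p : ℕ) :
    Layer ((Helper30.GA.flip n)^[p] v) := by
  induction p with
  | zero => exact hl
  | succ p ih =>
    rw [Function.iterate_succ_apply']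
    exact layer_flip (Helper85.GA.iter_flip_lt hv p) ih

/-- **The half twists can be collected in front.** -/
theorem Built.adm (h : Flip.Rel s n) {g : G} {p c : ℕ} (hb : Built s n g p c) :
    ∃ W, Adm n W c ∧ g = pv s (tw n p ++ W) := by
  induction hb with
  | one => exact ⟨[], Adm.nil, by simp [pv, tw]⟩
  | @twist g p c _ ih =>
    obtain ⟨W, h1, h2⟩ := ih
    refine ⟨W, h1, ?_⟩
    rw [h2, pv_append, pv_append, pv_tw, pv_tw, pow_succ', mul_assoc]
  | @layer v g p c hv hl _ ih =>
    obtain ⟨W, h1, h2⟩ := ih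
    refine ⟨(Helper30.GA.flip n)^[p] v ++ W, Adm.layer (Helper85.GA.iter_flip_lt hv p)
      (layer_iter_flip hv hl p) h1, ?_⟩
    rw [h2, pv_append, pv_append, pv_append, pv_tw, ← mul_assoc, pv_flip_iter h p hv, mul_assoc]
  | @pair u v g p c hu hv _ ih =>
    obtain ⟨W, h1, h2⟩ := ih
    refine ⟨(Helper30.GA.flip n)^[p] u ++ ((Helper30.GA.flip n)^[p] v ++ W),
      Adm.pair (Helper85.GA.iter_flip_lt hu.1 p) (Helper85.GA.iter_flip_lt hv.1 p)
        (Helper85.GA.iter_once_flip hu.1 hu.2 p) (Helper85.GA.iter_once_flip hv.1 hv.2 p) h1, ?_⟩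
    rw [h2, pv_append, pv_append, pv_append, pv_append, pv_tw, mul_assoc (pv s u),
      ← mul_assoc (pv s v), pv_flip_iter h p hv.1, mul_assoc, ← mul_assoc (pv s u),
      pv_flip_iter h p hu.1, mul_assoc]

/-- products of simple words, at least a third of them half twists -/
theorem Built.of_words {W : List ℕ} {c : ℕ} (hW : Adm n W c) : Built s n (pv s W) 0 c := by
  induction hW with
  | nil => exact Built.one
  | layer hv hl _ ih =>
    rw [pv_append]
    exact Built.layer hv hl ih
  | pair hu hv h1 h2 _ ih =>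
    rw [pv_append, pv_append, ← mul_assoc]
    exact Built.pair ⟨hu, h1⟩ ⟨hv, h2⟩ ih

theorem Built.twists {g : G} {p c : ℕ} (h : Built s n g p c) (q : ℕ) :
    Built s n (Flip.D s n ^ q * g) (q + p) c := by
  induction q with
  | zero => simpa using h
  | succ q ih =>
    rw [pow_succ', mul_assoc, Nat.add_right_comm]
    exact Built.twist ih

end Pool.Agent.Helper43.GA
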