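import Pool.Agent.Helper43.GA.PlusA
import Pool.Agent.Helper43.GA.Built
import Pool.Agent.Helper49.GA.Cost
import Pool.Agent.Helper30.GA.Free

/-!
# Half twists, layers and pairs of simple words
-/

set_option autoImplicit false

namespace Pool.Agent.Helper43.GA

open Pool.Agent.Helper30.GA Pool.Agent.Helper69.LZ Pool.Agent.Helper49.GA

theorem cst_of_adm {t : ℂ} {n : ℕ} (ht : ‖t‖ < 1) (hk : ‖1 - t‖ ≤ 2 * (1 - ‖t‖))
    (hnum : (4 - 3 * ‖t‖ ^ n - 2 * (1 - ‖t‖) * n * ‖t‖ ^ n) ^ 2 * ‖t‖ ^ (n + 1) < 1)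
    {W : List ℕ} {c : ℕ} (h : Adm n W c) : Cst n t W c := by
  induction h with
  | nil => exact Cst.nil
  | @layer v W c hv hl hW ih =>
    rw [add_comm c 2]
    exact (Cst.layer ht hk hl hv).append ih
  | @pair u v W c hu hv hu' hv' hW ih =>
    rw [← List.append_assoc, add_comm c (n + 1)]
    exact (Cst.pair ht hk hnum hu hv hu' hv').append ih

/-- **`p` half twists and words of cost at most `(n + 1) p`.** -/
theorem freeS_adm {n p : ℕ} (hp : 0 < p) {W : List ℕ} {c : ℕ} (hW : Adm n W c)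
    (hc : c ≤ (n + 1) * p) : H52TW.FreeS n (tw n p ++ W) := by
  intro s hs h1 hz L h0 hL hfix
  -- the sign of `s`
  obtain ⟨u, hu2, hun, hure, huz, hu0⟩ : ∃ u : ℂ, u ^ 2 = s ^ 2 ∧ ‖u‖ = ‖s‖ ∧ 0 ≤ u.re ∧
      (u⁻¹ - u).im ^ 2 < 3 * (u⁻¹ - u).re ^ 2 ∧ u ≠ 0 := by
    rcases le_total 0 s.re with h | h
    · exact ⟨s, rfl, rfl, h, hz, hs⟩
    · refine ⟨-s, by ring, norm_neg s, by rw [Complex.neg_re]; linarith, ?_, neg_ne_zero.2 hs⟩
      have e : (-s)⁻¹ - -s = -(s⁻¹ - s) := by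
        rw [inv_neg]
        ring
      rw [e, Complex.neg_im, Complex.neg_re, neg_sq, neg_sq]
      exact hz
  rw [← hu2] at hfix
  rw [← hun] at h1
  have hσ : 0 < ‖u‖ := norm_pos_iff.2 hu0
  rcases le_or_gt (((n : ℝ) + 1) ^ 2 * (Real.log ‖u‖) ^ 2) (3 / 2) with hA | hB
  · exact caseA_adm hu0 h1 hure huz hA hp hW hc h0 hL hfix
  · obtain ⟨a, ha⟩ : ∃ a, a = -Real.log ‖u‖ := ⟨_, rfl⟩
    have ha0 : 0 < a := by
      rw [ha]
      have := Real.log_neg hσ h1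
      linarith
    have hr : ‖u ^ 2‖ = Real.exp (-2 * a) := by
      rw [norm_pow, ha, show -2 * -Real.log ‖u‖ = Real.log ‖u‖ + Real.log ‖u‖ by ring,
        Real.exp_add, Real.exp_log hσ]
      ring
    have ht : ‖u ^ 2‖ < 1 := by
      rw [norm_pow]
      exact pow_lt_one₀ (norm_nonneg _) h1 (by norm_num)
    have hk : ‖1 - u ^ 2‖ ≤ 2 * (1 - ‖u ^ 2‖) := (kappa_lt hu0 h1 huz).le
    obtain ⟨b1, b2⟩ := numB (n := n) ha0 hr (by rw [ha, neg_sq]; exact hB)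
    have hr0 : 0 < ‖u ^ 2‖ := norm_pos_iff.2 (pow_ne_zero 2 hu0)
    have hA1 := Pool.Agent.Helper49.GA.one_le_AA hr0.le ht.le n
    unfold Pool.Agent.Helper49.GA.AA at hA1
    have hnum := numB_sq hr0 (by linarith) b1 b2
    exact caseB_cst ht hp hW.lt (cst_of_adm ht hk hnum hW) (cst_of_adm ht hk hnum (hW.iter_flip p))
      hc h0 hL hfix

end Pool.Agent.Helper43.GA
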