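import Pool.Agent.Helper30.GA.PartA
import Pool.Agent.Helper12.GA.Normal
import Pool.Agent.Helper43.GA.Adm

/-!
# The energy and words made of layers and pairs of simple words
-/

set_option autoImplicit false

namespace Pool.Agent.Helper43.GA

open Pool.Agent.Helper30.GA Pool.Agent.Helper69.LZ Finset

theorem sum_map_le_of_nodup {n : ℕ} (f : ℕ → ℝ) (hf : ∀ i < n, 0 ≤ f i) {v : List ℕ}
    (hv : ∀ a ∈ v, a < n) (hd : v.Nodup) : (v.map f).sum ≤ ∑ i ∈ range n, f i := by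
  rw [← List.sum_toFinset f hd]
  refine sum_le_sum_of_subset_of_nonneg ?_ fun i hi _ => hf i (mem_range.1 hi)
  intro i hi
  exact mem_range.2 (hv i (List.mem_toFinset.1 hi))

theorem Layer.nodup {v : List ℕ} (h : Layer v) : v.Nodup := by
  refine List.Pairwise.imp ?_ h
  intro a b hab
  omega

/-- the weight of a layer -/
theorem wt_layer {n : ℕ} {v : List ℕ} (hv : ∀ a ∈ v, a < n) (h : Layer v) :
    wt (n + 1) v ≤ n * (n + 2) / 6 := by
  have h1 : wt (n + 1) v ≤ ∑ i ∈ range n, tm (n + 1) i :=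
    sum_map_le_of_nodup (tm (n + 1)) (fun i hi => tm_nonneg (by omega)) hv h.nodup
  refine h1.trans ?_
  cases n with
  | zero => simp
  | succ n =>
    rw [sum_tm _ _ (by omega)]
    refine le_of_eq ?_
    have : ((n : ℝ) + 1 + 1) ≠ 0 := by positivity
    push_cast
    field_simp
    ring

/-- **The growth of the energy.** -/
theorem growthA {s : ℂ} (hs : s ≠ 0) (h1 : ‖s‖ < 1) {n : ℕ} {W : List ℕ} {c : ℕ}
    (hW : Adm n W c) {L : ℕ → ℂ} (h0 : L 0 = 0) (hL : ∀ j, n + 1 ≤ j → L j = 0) :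
    E (n + 1) (uu s (run (s ^ 2) W L)) ≤
      Real.exp (2 * ‖1 - s‖ ^ 4 / (1 - ‖s‖ ^ 4) * (n * (n + 2) / 6) * c) * E (n + 1) (uu s L) := by
  have hden : 0 < 1 - ‖s‖ ^ 4 := by
    have : ‖s‖ ^ 4 < 1 := pow_lt_one₀ (norm_nonneg s) h1 (by norm_num)
    linarith
  obtain ⟨e, he⟩ : ∃ e, e = 2 * ‖1 - s‖ ^ 4 / (1 - ‖s‖ ^ 4) := ⟨_, rfl⟩
  have he0 : 0 ≤ e := by
    rw [he]
    positivity
  rw [← he]
  induction hW generalizing L with
  | nil => simp
  | @layer v W c hv hl _ ih =>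
    have hv' : ∀ a ∈ v, a + 1 < n + 1 := fun a ha => by have := hv a ha; omega
    obtain ⟨z0, zL⟩ := Pool.Agent.Helper30.GA.run_zero (s ^ 2) hv' h0 hL
    rw [run_append]
    refine (ih z0 zL).trans ?_
    have k := E_run hs h1 hv' h0 hL
    rw [← he] at k
    refine (mul_le_mul_of_nonneg_left k (Real.exp_pos _).le).trans ?_
    rw [← mul_assoc, ← Real.exp_add]
    refine mul_le_mul_of_nonneg_right (Real.exp_le_exp.2 ?_) (E_nonneg _ _)
    have k2 := mul_le_mul_of_nonneg_left (wt_layer hv hl) he0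
    have k3 : 0 ≤ e * (n * (n + 2) / 6) := by positivity
    push_cast
    nlinarith
  | @pair u v W c hu hv ou ov _ ih =>
    obtain ⟨cu, hcu, eu⟩ := Pool.Agent.Helper12.GA.normal hu ou
    obtain ⟨cv, hcv, ev⟩ := Pool.Agent.Helper12.GA.normal hv ov
    have hlt : ∀ d : ℕ → ℕ, ∀ a ∈ sw n d, a + 1 < n + 1 := fun d a ha => by
      have := sw_lt a ha
      omega
    obtain ⟨y0, yL⟩ := Pool.Agent.Helper30.GA.run_zero (s ^ 2) (hlt cu) h0 hL
    obtain ⟨z0, zL⟩ := Pool.Agent.Helper30.GA.run_zero (s ^ 2) (hlt cv) y0 yL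
    rw [run_append, run_append, eu, ev]
    refine (ih z0 zL).trans ?_
    have k1 := E_run hs h1 (hlt cu) h0 hL
    have k2 := E_run hs h1 (hlt cv) y0 yL
    rw [← he] at k1 k2
    have k3 := k2.trans (mul_le_mul_of_nonneg_left k1 (Real.exp_pos _).le)
    refine (mul_le_mul_of_nonneg_left k3 (Real.exp_pos _).le).trans ?_
    rw [← mul_assoc, ← mul_assoc, ← Real.exp_add, ← Real.exp_add]
    refine mul_le_mul_of_nonneg_right (Real.exp_le_exp.2 ?_) (E_nonneg _ _)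
    have k4 := mul_le_mul_of_nonneg_left (wt_sw (n := n) hcu) he0
    have k5 := mul_le_mul_of_nonneg_left (wt_sw (n := n) hcv) he0
    have k6 : e * (n * (n + 2) / 6) * ((c + (n + 1) : ℕ) : ℝ) =
        e * (n * (n + 2) / 6) * c + e * (n * (n + 1) * (n + 2) / 12) +
          e * (n * (n + 1) * (n + 2) / 12) := by
      push_cast
      ring
    rw [k6]
    linarith

/-- **Part A** for words made of layers and pairs of simple words. -/
theorem caseA_adm {s : ℂ} (hs : s ≠ 0) (h1 : ‖s‖ < 1) (hre : 0 ≤ s.re)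
    (hz : (s⁻¹ - s).im ^ 2 < 3 * (s⁻¹ - s).re ^ 2) {n p : ℕ}
    (hn : ((n : ℝ) + 1) ^ 2 * (Real.log ‖s‖) ^ 2 ≤ 3 / 2) (hp : 0 < p) {W : List ℕ} {c : ℕ}
    (hW : Adm n W c) (hc : c ≤ (n + 1) * p) {L : ℕ → ℂ} (h0 : L 0 = 0)
    (hL : ∀ j, n < j → L j = 0) (hfix : run (s ^ 2) (tw n p ++ W) L = L) : L = 0 := by
  have hL' : ∀ j, n + 1 ≤ j → L j = 0 := fun j hj => hL j (by omega)
  obtain ⟨a, ha⟩ : ∃ a, a = -Real.log ‖s‖ := ⟨_, rfl⟩
  have hσ : 0 < ‖s‖ := norm_pos_iff.2 hs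
  have hδ := norm_one_sub_le hs h1 hre hz
  have hnum := numA (n := n) hσ h1 ha (norm_nonneg (1 - s)) hδ (by rw [ha, neg_sq]; exact hn)
  obtain ⟨⟨t0, tL⟩, tE⟩ := E_tw hs p h0 hL'
  have k1 := growthA hs h1 hW t0 tL
  rw [← run_append, hfix, tE] at k1
  obtain ⟨e, he⟩ : ∃ e, e = 2 * ‖1 - s‖ ^ 4 / (1 - ‖s‖ ^ 4) := ⟨_, rfl⟩
  have h4 : 0 < 1 - ‖s‖ ^ 4 := by
    have : ‖s‖ ^ 4 < 1 := pow_lt_one₀ hσ.le h1 (by norm_num)
    linarith
  have he0 : 0 ≤ e := by
    rw [he]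
    positivity
  rw [← he] at hnum k1
  have hp' : (0 : ℝ) < p := by exact_mod_cast hp
  have hcR : (c : ℝ) ≤ (n + 1) * p := by exact_mod_cast hc
  have k2 : e * (n * (n + 2) / 6) * c < 2 * p * ((n + 1) * a) := by
    calc e * (n * (n + 2) / 6) * c ≤ e * (n * (n + 2) / 6) * ((n + 1) * p) :=
          mul_le_mul_of_nonneg_left hcR (by positivity)
      _ = (2 * p) * (e * (n * (n + 1) * (n + 2) / 12)) := by ring
      _ < (2 * p) * ((n + 1) * a) := mul_lt_mul_of_pos_left hnum (by positivity)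
      _ = _ := by ring
  have k3 : ((‖s‖ ^ 2) ^ (n + 1)) ^ p = Real.exp (-(2 * p * ((n + 1) * a))) := by
    have : ‖s‖ = Real.exp (-a) := by
      rw [ha, neg_neg, Real.exp_log hσ]
    rw [this, ← Real.exp_nat_mul, ← Real.exp_nat_mul, ← Real.exp_nat_mul]
    congr 1
    push_cast
    ring
  have k4 : Real.exp (e * (n * (n + 2) / 6) * c) * ((‖s‖ ^ 2) ^ (n + 1)) ^ p < 1 := by
    rw [k3, ← Real.exp_add]
    rw [Real.exp_lt_one_iff]
    linarith
  have k5 : E (n + 1) (uu s L) ≤ 0 := by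
    by_contra hcon
    push Not at hcon
    have := mul_lt_mul_of_pos_right k4 hcon
    rw [one_mul, mul_assoc] at this
    linarith
  have k6 := eq_zero_of_E hs h0 k5
  funext j
  rcases le_or_gt j (n + 1) with h | h
  · exact k6 j h
  · exact hL' j h.le

end Pool.Agent.Helper43.GA
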